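import Pool.Agent.Helper85.P11.Base

/-!
# The level `121`
-/

set_option autoImplicit false

namespace Pool.Agent.Helper85.P11

open Pool.Agent.Helper14.CV (Homog EqC act Tl StFar StFex)
open Pool.Agent.Helper28.WK (SymP Tw evw Ok)
open Pool.Agent.Helper85.T5C (cls_of)

/-- Representatives. -/
private def LA : List (ℤ × ℤ × ℤ × ℤ) :=
  [(0, -1, 1, 0), (0, -1, 1, 1), (0, -1, 1, 2), (0, -1, 1, 3), (0, -1, 1, 4), (0, -1, 1, 5),
    (0, 1, -1, 5), (0, 1, -1, 4), (0, 1, -1, 3), (0, 1, -1, 2), (0, 1, -1, 1), (1, 0, 0, 1),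
    (1, 0, 1, 1), (1, 0, -5, 1), (1, 0, 4, 1), (1, 0, 3, 1), (1, 0, -2, 1), (1, 0, 2, 1),
    (1, 0, -3, 1), (1, 0, -4, 1), (1, 0, 5, 1), (1, 0, -1, 1), (1, 1, 0, 1), (-1, -1, 1, 0),
    (1, 1, 1, 2), (-1, -1, 5, 4), (1, 1, 4, 5), (1, 1, 3, 4), (-1, -1, 2, 1), (1, 1, 2, 3),
    (-1, -1, 3, 2), (-1, -1, 4, 3), (-5, 6, -1, 1), (1, 2, 0, 1), (5, -1, 1, 0), (-1, -2, 1, 1),
    (1, 2, 1, 3), (-3, 5, -2, 3), (-3, 5, -5, 8), (1, 2, 3, 7), (-1, -2, 2, 3), (1, 2, 2, 5),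
    (-1, -2, 3, 5), (4, -3, -1, 1), (1, 3, 0, 1), (-4, -1, 1, 0), (5, 4, 1, 1), (-1, -3, 1, 2),
    (3, -2, -7, 5), (-3, 2, -2, 1), (-3, 2, -5, 3), (3, -2, -10, 7), (-1, -3, 2, 5),
    (-2, 5, -1, 2), (3, -2, -1, 1), (1, 4, 0, 1), (-3, -1, 1, 0), (-4, -5, 1, 1), (2, -3, -3, 5),
    (-2, 3, -5, 7), (5, -2, -2, 1), (3, 1, 2, 1), (3, 1, 5, 2), (-3, -1, 10, 3), (2, -3, -1, 2),
    (-2, 3, -1, 1), (1, 5, 0, 1), (2, -1, 1, 0), (-3, -4, 1, 1), (5, 3, 8, 5), (2, -1, -3, 2),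
    (-2, 1, -5, 2), (2, -1, -5, 3), (-2, 1, -3, 1), (5, 3, 3, 2), (-2, 1, -7, 3), (2, -1, -1, 1),
    (1, -5, 0, 1), (-2, -1, 1, 0), (2, 1, 1, 1), (-2, -1, 7, 3), (5, -3, -3, 2), (-2, -1, 3, 1),
    (2, 1, 5, 3), (-2, -1, 5, 2), (2, 1, 3, 2), (5, -3, -8, 5), (-3, 4, -1, 1), (1, -4, 0, 1),
    (3, -1, 1, 0), (-2, -3, 1, 1), (2, 3, 1, 2), (-2, -3, 7, 10), (3, -1, -5, 2), (3, -1, -2, 1),
    (5, 2, 2, 1), (-2, -3, 5, 7), (2, 3, 3, 5), (-4, 5, -1, 1), (1, -3, 0, 1), (4, -1, 1, 0),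
    (3, 2, 1, 1), (-2, -5, 1, 2), (-1, 3, -2, 5), (3, 2, 10, 7), (-3, -2, 5, 3), (-3, -2, 2, 1),
    (3, 2, 7, 5), (-1, 3, -1, 2), (5, -4, -1, 1), (1, -2, 0, 1), (-5, -1, 1, 0), (4, 3, 1, 1),
    (-1, 2, -3, 5), (1, -2, -2, 5), (-1, 2, -2, 3), (1, -2, -3, 7), (-3, -5, 5, 8),
    (-3, -5, 2, 3), (1, -2, -1, 3), (-1, 2, -1, 1), (1, -1, 0, 1), (1, -1, 1, 0), (6, 5, 1, 1),
    (-1, 1, -4, 3), (-1, 1, -3, 2), (1, -1, -2, 3), (-1, 1, -2, 1), (1, -1, -3, 4),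
    (1, -1, -4, 5), (-1, 1, -5, 4), (1, -1, -1, 2)]

/-- Vectors with the same value. -/
private def Ks : List (ℤ × ℤ) :=
  [(1, 0), (0, 1), (2, 1), (3, 1), (4, 1), (5, 1), (1, 1), (1, 2), (1, 3), (1, 4), (1, 5),
    (3, 5), (5, 3), (2, 5), (5, 2), (4, 5), (2, 3), (3, 2), (6, 1), (3, 7), (2, 7), (5, 8),
    (3, 10)]

/-- The points of the projective line. -/
private def Pt : List (ZMod 11 × ZMod 11) :=
  [(1, 0), (0, 1), (1, 1), (2, 1), (3, 1), (4, 1), (5, 1), (6, 1),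
    (7, 1), (8, 1), (9, 1), (10, 1)]

private instance : Fact (Nat.Prime 11) := ⟨by norm_num⟩

set_option maxRecDepth 100000 in
private lemma clsA : ∀ p q r s : ZMod 11, p * s - q * r = 1 → ∃ t ∈ LA,
    q * (t.1 : ZMod 11) - p * (t.2.1 : ZMod 11) = 0 ∧
      r * (t.2.2.2 : ZMod 11) - s * (t.2.2.1 : ZMod 11) = 0 :=
  cls_of Pt LA (by decide) (by decide) (by decide)

set_option maxRecDepth 100000 in
private lemma chkA : ∀ t ∈ LA, okA Ks t := by decide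

private lemma dvdp {n : ℤ} : (11 : ℤ) ∣ n ↔ (n : ZMod 11) = 0 :=
  (ZMod.intCast_zmod_eq_zero_iff_dvd n 11).symm

private theorem main121 (hfar : StFar) {F : ℤ → ℤ → ℂ} (h : Inv 11 11 1 F) {κ : ℂ}
    (h1_0 : F 1 0 = κ) (h0_1 : F 0 1 = κ) (h2_1 : F 2 1 = κ) (h3_1 : F 3 1 = κ)
    (h4_1 : F 4 1 = κ) (h5_1 : F 5 1 = κ) :
    EqC F 0 := by
  have h1_1 : F 1 1 = κ := by
    have e := g1 h 1 0 0 1 1 0 (-1) 1 1 1 0 1 1 1 1 (-1)
      (by decide)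
    linear_combination (-1/2 : ℂ) * e + (1/2) * h0_1 + (1/2) * h1_0
  have h1_2 : F 1 2 = κ := by
    have e := g1 h 1 0 0 1 1 0 (-2) 1 1 2 0 1 1 2 1 (-1)
      (by decide)
    linear_combination (-1) * e + (1) * h0_1 + (1) * h1_0 + (-1) * h2_1
  have h1_3 : F 1 3 = κ := by
    have e := g1 h 1 0 0 1 1 0 (-3) 1 1 3 0 1 1 3 1 (-1)
      (by decide)
    linear_combination (-1) * e + (1) * h0_1 + (1) * h1_0 + (-1) * h3_1
  have h1_4 : F 1 4 = κ := by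
    have e := g1 h 1 0 0 1 1 0 (-4) 1 1 4 0 1 1 4 1 (-1)
      (by decide)
    linear_combination (-1) * e + (1) * h0_1 + (1) * h1_0 + (-1) * h4_1
  have h1_5 : F 1 5 = κ := by
    have e := g1 h 1 0 0 1 1 0 (-5) 1 1 5 0 1 1 5 1 (-1)
      (by decide)
    linear_combination (-1) * e + (1) * h0_1 + (1) * h1_0 + (-1) * h5_1
  have h3_5 : F 3 5 = κ := by
    have e := g1 h 6 (-1) 1 (-20) (-1) 2 (-3) 5 1 3 1 2 3 5 (-1) 1
      (by decide)
    linear_combination (-1/2 : ℂ) * e + (1) * h1_2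
  have h5_3 : F 5 3 = κ := by
    have e := g1 h 1 0 0 1 1 0 (-5) 3 1 5 0 1 3 5 1 (-1)
      (by decide)
    linear_combination (-1) * e + (1) * h0_1 + (-1) * h3_5 + (1) * h1_0
  have h2_5 : F 2 5 = κ := by
    have e := g1 h 4 (-1) 1 (-30) (-1) 3 (-2) 5 1 2 1 3 2 5 (-1) 1
      (by decide)
    linear_combination (-1/2 : ℂ) * e + (1) * h1_3
  have h5_2 : F 5 2 = κ := by
    have e := g1 h 1 0 0 1 1 0 (-5) 2 1 5 0 1 2 5 1 (-1)
      (by decide)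
    linear_combination (-1) * e + (1) * h0_1 + (-1) * h2_5 + (1) * h1_0
  have h4_5 : F 4 5 = κ := by
    have e := g0 h 9 (-2) (-1) 27 2 1 5 2 2 5 4 5 1 1 1 (-1)
      (by decide)
    linear_combination e + (1) * h1_1 + (1) * h2_1 + (-1) * h5_2
  have h2_3 : F 2 3 = κ := by
    have e := g1 h 8 (-1) 1 (-15) (-2) 3 (-4) 5 2 4 2 3 4 5 (-1) 1
      (by decide)
    linear_combination (1/2 : ℂ) * e + (1) * h4_5
  have h3_2 : F 3 2 = κ := by
    have e := g1 h 1 0 0 1 1 0 (-3) 2 1 3 0 1 2 3 1 (-1)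
      (by decide)
    linear_combination (-1) * e + (1) * h0_1 + (-1) * h2_3 + (1) * h1_0
  have h6_1 : F 6 1 = κ := by
    have e := g0 h 1 (-1) 0 1 1 0 5 1 1 5 1 0 6 1 1 1
      (by decide)
    linear_combination (-1) * e + (1) * h5_1
  have h3_7 : F 3 7 = κ := by
    have e := g0 h 5 (-1) 1 (-24) 2 1 5 2 2 5 1 2 3 7 (-1) 1
      (by decide)
    linear_combination (-1) * e + (1) * h1_2 + (-1) * h2_1 + (1) * h5_2
  have h2_7 : F 2 7 = κ := by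
    have e := g0 h 3 (-1) 1 (-40) 3 1 4 1 3 4 2 7 1 4 (-1) 1
      (by decide)
    linear_combination e + (1) * h1_4 + (1) * h3_1 + (-1) * h4_1
  have h5_8 : F 5 8 = κ := by
    have e := g0 h 7 (-3) (-1) 52 4 1 5 1 4 5 5 8 2 3 1 (-1)
      (by decide)
    linear_combination e + (1) * h2_3 + (1) * h4_1 + (-1) * h5_1
  have h3_10 : F 3 10 = κ := by
    have e := g1 h 3 (-1) 1 (-40) (-1) 4 (-3) 10 1 3 1 4 3 10 (-1) 1
      (by decide)
    linear_combination (-1/2 : ℂ) * e + (1) * h1_4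
  have hK : ∀ c ∈ Ks, F c.1 c.2 = κ := by
    intro c hc
    simp only [Ks, List.mem_cons, List.not_mem_nil, or_false] at hc
    rcases hc with rfl | rfl | rfl | rfl | rfl | rfl | rfl | rfl | rfl | rfl | rfl | rfl | rfl |
      rfl | rfl | rfl | rfl | rfl | rfl | rfl | rfl | rfl | rfl
    · exact h1_0
    · exact h0_1
    · exact h2_1
    · exact h3_1
    · exact h4_1
    · exact h5_1
    · exact h1_1
    · exact h1_2
    · exact h1_3
    · exact h1_4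
    · exact h1_5
    · exact h3_5
    · exact h5_3
    · exact h2_5
    · exact h5_2
    · exact h4_5
    · exact h2_3
    · exact h3_2
    · exact h6_1
    · exact h3_7
    · exact h2_7
    · exact h5_8
    · exact h3_10
  refine fin1 hfar h κ Ks hK LA chkA (fun p q r s hd => ?_)
  have hc : (p : ZMod 11) * s - q * r = 1 := by
    have h' := congrArg (Int.cast : ℤ → ZMod 11) hd
    push_cast at h'
    exact h'
  obtain ⟨t, htL, c1, c2⟩ := clsA _ _ _ _ hc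
  exact ⟨t, htL, dvdp.2 (by push_cast; exact c1), dvdp.2 (by push_cast; exact c2)⟩

/-- The coordinates at level `121`. -/
def a11 : (ℤ → ℤ → ℂ) →ₗ[ℂ] (Fin 5 → ℂ) where
  toFun K := ![K 0 1 - K 1 0, K 2 11 - K 1 0, K 3 11 - K 1 0, K 4 11 - K 1 0, K 5 11 - K 1 0]
  map_add' K L := by
    funext i
    fin_cases i <;> simp <;> ring
  map_smul' s K := by
    funext i
    fin_cases i <;> simp <;> ring

/-- Level `121`. -/
theorem bsG11 (hfar : StFar) : BsGP 11 5 a11 := by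
  intro K hS hW hst ha
  have f0 : K 0 1 - K 1 0 = 0 := congrFun ha 0
  have f1 : K 2 11 - K 1 0 = 0 := congrFun ha 1
  have f2 : K 3 11 - K 1 0 = 0 := congrFun ha 2
  have f3 : K 4 11 - K 1 0 = 0 := congrFun ha 3
  have f4 : K 5 11 - K 1 0 = 0 := congrFun ha 4
  have hI := inv_sq (by norm_num) hS hW hst
  norm_num at hI
  have hH := hS.1
  have hc := main121 hfar hI (κ := K 1 0) (by norm_num) (by
      have := hH 11 0 1 (by norm_num) (by norm_num)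
      norm_num at this ⊢
      rw [this]; exact sub_eq_zero.1 f0)
    (by norm_num; exact sub_eq_zero.1 f1)
    (by norm_num; exact sub_eq_zero.1 f2)
    (by norm_num; exact sub_eq_zero.1 f3)
    (by norm_num; exact sub_eq_zero.1 f4)
  obtain ⟨c, hc⟩ := hc
  refine ⟨c, fun p q hpq => ?_⟩
  have e1 := hc (11 * p) q (by omega)
  have e2 := hH 11 p q (by norm_num) hpq
  simp only at e1
  rw [← e2, e1]
  simp

end Pool.Agent.Helper85.P11
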