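import Pool.Agent.Helper85.P11.M_Core
import Pool.Agent.Helper85.P11.M_Bs11
import Pool.Agent.Helper83.P1C.StB

/-!
# The levels `1`, `11` and `121` in the form of `Helper83/P1C/StB.lean`
-/

set_option autoImplicit false

namespace Pool.Agent.Helper85.P11

open Pool.Agent.Helper14.CV (StFar)

theorem bsP11 (hfar : StFar) : Pool.Agent.Helper83.P1C.BsP 11 5 a11 := bsG11 hfar

theorem coreP11 (hfar : StFar) : Pool.Agent.Helper83.P1C.CoreVP 11 1 := hCore11 hfar

theorem coreP0 (hfar : StFar) (p : ℕ) : Pool.Agent.Helper83.P1C.CoreVP p 0 := hCore0 hfar p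

end Pool.Agent.Helper85.P11
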