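import Pool.Agent.Helper85.P11.M_Core

/-!
# The level `13`
-/

set_option autoImplicit false

namespace Pool.Agent.Helper85.P11

open Pool.Agent.Helper14.CV (Homog EqC act Tl StFar StFex)
open Pool.Agent.Helper28.WK (SymP Tw evw Ok)

/-- Representatives. -/
private def LA : List (ℤ × ℤ × ℤ × ℤ) :=
  [(1, 0, 0, 1), (0, -1, 1, 0), (0, -1, 1, 1), (0, -1, 1, 2), (0, -1, 1, 3), (1, 0, -3, 1),
    (1, -1, -2, 3), (1, 0, -2, 1), (1, 0, 2, 1), (-1, 1, -3, 2), (1, 0, 3, 1), (0, 1, -1, 3),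
    (0, 1, -1, 2), (1, 0, -1, 1)]

/-- Vectors with the same value. -/
private def Ks : List (ℤ × ℤ) :=
  [(1, 0), (0, 1), (1, 2), (1, 1), (1, 3)]

set_option maxRecDepth 100000 in
private lemma clsA : ∀ r s : ZMod 13, (r ≠ 0 ∨ s ≠ 0) → ∃ t ∈ LA,
    r * (t.2.2.2 : ZMod 13) - s * (t.2.2.1 : ZMod 13) = 0 := by decide

set_option maxRecDepth 100000 in
private lemma chkA : ∀ t ∈ LA, okA Ks t := by decide

private lemma dvdp {n : ℤ} : (13 : ℤ) ∣ n ↔ (n : ZMod 13) = 0 :=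
  (ZMod.intCast_zmod_eq_zero_iff_dvd n 13).symm

private theorem main13 (hfar : StFar) {F : ℤ → ℤ → ℂ} (h : Inv 1 13 13 F) {κ : ℂ}
    (h1_0 : F 1 0 = κ) (h0_1 : F 0 1 = κ) (h1_2 : F 1 2 = κ) :
    EqC F 0 := by
  have h1_1 : F 1 1 = κ := by
    have e := g0 h 1 (-1) 0 1 1 0 0 1 1 0 1 0 1 1 1 1
      (by decide)
    linear_combination (-1) * e + (1) * h0_1
  have h1_3 : F 1 3 = κ := by
    have e := g0 h 5 (-2) 1 (-5) 1 2 1 3 1 1 1 3 1 2 1 (-1)
      (by decide)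
    linear_combination (1/2 : ℂ) * e + (1) * h1_2
  have hK : ∀ c ∈ Ks, F c.1 c.2 = κ := by
    intro c hc
    simp only [Ks, List.mem_cons, List.not_mem_nil, or_false] at hc
    rcases hc with rfl | rfl | rfl | rfl | rfl
    · exact h1_0
    · exact h0_1
    · exact h1_2
    · exact h1_1
    · exact h1_3
  refine fin1 hfar h κ Ks hK LA chkA (fun p q r s hd => ?_)
  have hc : (r : ZMod 13) ≠ 0 ∨ (s : ZMod 13) ≠ 0 := by
    by_contra hcon
    push Not at hcon
    have h' := congrArg (Int.cast : ℤ → ZMod 13) hd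
    push_cast at h'
    rw [hcon.1, hcon.2, mul_zero, mul_zero, sub_zero] at h'
    exact absurd h' (by decide)
  obtain ⟨t, htL, c2⟩ := clsA _ _ hc
  exact ⟨t, htL, one_dvd _, dvdp.2 (by push_cast; exact c2)⟩

/-- Level `13`. -/
theorem hCore13 (hfar : StFar) : CoreVP 13 1 := by
  intro F hS hW hst hev
  have h := inv_of hS hW hst
  obtain ⟨k1, k2⟩ := vals (by norm_num) h hev
  have h' : Inv 1 13 13 F := by norm_num at h; exact h
  exact main13 hfar h' rfl k1 k2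

end Pool.Agent.Helper85.P11
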