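import Pool.Agent.Helper14.W5.StB
import Pool.Agent.Helper14.CV.StB
import Pool.Agent.Helper85.T5C.Cls

/-!
# Levels `p^n`: tools for the base levels
-/

set_option autoImplicit false

namespace Pool.Agent.Helper85.P11

open Pool.Agent.Helper14.CV (Homog EqC act Tl StFar StFex)
open Pool.Agent.Helper28.WK (SymP Tw evw Ok)

/-- A symbol `K` of level `p^2` with `K∘W ≈ -K`, `K∘* ≈ K` and `a K = 0` is constant. -/
def BsGP (p D : ℕ) (a : (ℤ → ℤ → ℂ) →ₗ[ℂ] (Fin D → ℂ)) : Prop := ∀ K : ℤ → ℤ → ℂ, SymP p 0 2 K →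
  EqC (act 0 (-1) ((p : ℤ) ^ 2) 0 K) (-K) → EqC (act (-1) 0 0 1 K) K → a K = 0 → EqC K 0

/-- Core for symbols of any type: killed by all words, `W = -1`, `* = +1` implies constant, at level `p^n`. -/
def CoreVP (p n : ℕ) : Prop := ∀ G : ℤ → ℤ → ℂ, SymP p 0 n G →
  EqC (act 0 (-1) ((p : ℤ) ^ n) 0 G) (-G) → EqC (act (-1) 0 0 1 G) G →
  (∀ ls : List ℕ, Ok p ls → evw 1 ls G = 0) → EqC G 0

/-- The symmetries of a potential: matrices of determinant one with `e1 ∣ b`, `e2 ∣ c`; the reflection and the involution `(x, y) ↦ (-y, e3 x)`. -/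
structure Inv (e1 e2 e3 : ℤ) (F : ℤ → ℤ → ℂ) : Prop where
  hom : Homog F
  gam : ∀ a b c d : ℤ, a * d - e1 * b * (e2 * c) = 1 → ∀ x y z w : ℤ, (x ≠ 0 ∨ y ≠ 0) →
    (z ≠ 0 ∨ w ≠ 0) → F (a * x + e1 * b * y) (e2 * c * x + d * y) -
      F (a * z + e1 * b * w) (e2 * c * z + d * w) = F x y - F z w
  st : ∀ x y : ℤ, (x ≠ 0 ∨ y ≠ 0) → F (-x) y = F x y
  sw : ∀ x y z w : ℤ, (x ≠ 0 ∨ y ≠ 0) → (z ≠ 0 ∨ w ≠ 0) →
    F (-y) (e3 * x) - F (-w) (e3 * z) = -(F x y - F z w)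

theorem ev {e1 e2 e3 : ℤ} {F : ℤ → ℤ → ℂ} (h : Inv e1 e2 e3 F) {x y k P Q : ℤ}
    (hn : P ≠ 0 ∨ Q ≠ 0) (hk : k ≠ 0) (hx : x = k * P ∨ x = -(k * P)) (hy : y = k * Q) :
    F x y = F P Q := by
  subst hy
  rcases hx with rfl | rfl
  · exact h.hom k P Q hk hn
  · have e : -(k * P) = k * (-P) := by ring
    rw [e, h.hom k (-P) Q hk (by rcases hn with h | h; exacts [Or.inl (neg_ne_zero.2 h), Or.inr h]),
      h.st P Q hn]

theorem g0 {e1 e2 e3 : ℤ} {F : ℤ → ℤ → ℂ} (h : Inv e1 e2 e3 F)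
    (a b c d x y z w X Z P Q P' Q' k k' : ℤ)
    (hn : a * d - e1 * b * (e2 * c) = 1 ∧
      ((X ≠ 0 ∨ y ≠ 0) ∧ (Z ≠ 0 ∨ w ≠ 0) ∧ (P ≠ 0 ∨ Q ≠ 0) ∧ (P' ≠ 0 ∨ Q' ≠ 0) ∧ k ≠ 0 ∧ k' ≠ 0 ∧
      (x ≠ 0 ∨ y ≠ 0) ∧ (z ≠ 0 ∨ w ≠ 0)) ∧ (x = 1 * X ∨ x = -(1 * X)) ∧ (z = 1 * Z ∨ z = -(1 * Z)) ∧
      (a * x + e1 * b * y = k * P ∨ a * x + e1 * b * y = -(k * P)) ∧ e2 * c * x + d * y = k * Q ∧
      (a * z + e1 * b * w = k' * P' ∨ a * z + e1 * b * w = -(k' * P')) ∧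
      e2 * c * z + d * w = k' * Q') :
    F P Q - F P' Q' = F X y - F Z w := by
  obtain ⟨hT, ⟨n1, n2, n3, n4, n5, n6, n7, n8⟩, c1, c2, c3, c4, c5, c6⟩ := hn
  have e := h.gam a b c d hT x y z w n7 n8
  rw [ev h n3 n5 c3 c4, ev h n4 n6 c5 c6,
    ev h (y := y) n1 one_ne_zero c1 (one_mul y).symm,
    ev h (y := w) n2 one_ne_zero c2 (one_mul w).symm] at e
  exact e

theorem g1 {e1 e2 e3 : ℤ} {F : ℤ → ℤ → ℂ} (h : Inv e1 e2 e3 F)
    (a b c d x y z w X Z P Q P' Q' k k' : ℤ)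
    (hn : a * d - e1 * b * (e2 * c) = 1 ∧
      ((X ≠ 0 ∨ y ≠ 0) ∧ (Z ≠ 0 ∨ w ≠ 0) ∧ (P ≠ 0 ∨ Q ≠ 0) ∧ (P' ≠ 0 ∨ Q' ≠ 0) ∧ k ≠ 0 ∧ k' ≠ 0 ∧
      (x ≠ 0 ∨ y ≠ 0) ∧ (z ≠ 0 ∨ w ≠ 0) ∧ (-y ≠ 0 ∨ e3 * x ≠ 0) ∧ (-w ≠ 0 ∨ e3 * z ≠ 0)) ∧
      (x = 1 * X ∨ x = -(1 * X)) ∧ (z = 1 * Z ∨ z = -(1 * Z)) ∧
      (a * (-y) + e1 * b * (e3 * x) = k * P ∨ a * (-y) + e1 * b * (e3 * x) = -(k * P)) ∧
      e2 * c * (-y) + d * (e3 * x) = k * Q ∧
      (a * (-w) + e1 * b * (e3 * z) = k' * P' ∨ a * (-w) + e1 * b * (e3 * z) = -(k' * P')) ∧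
      e2 * c * (-w) + d * (e3 * z) = k' * Q') :
    F P Q - F P' Q' = -(F X y - F Z w) := by
  obtain ⟨hT, ⟨n1, n2, n3, n4, n5, n6, n7, n8, n9, n10⟩, c1, c2, c3, c4, c5, c6⟩ := hn
  have e := h.gam a b c d hT (-y) (e3 * x) (-w) (e3 * z) n9 n10
  have e2 := h.sw x y z w n7 n8
  rw [ev h n3 n5 c3 c4, ev h n4 n6 c5 c6] at e
  rw [e2, ev h (y := y) n1 one_ne_zero c1 (one_mul y).symm,
    ev h (y := w) n2 one_ne_zero c2 (one_mul w).symm] at e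
  exact e

private theorem nz {a b c d e x y : ℤ} (h : a * d - b * c = e) (he : e ≠ 0) (hv : x ≠ 0 ∨ y ≠ 0) :
    a * x + b * y ≠ 0 ∨ c * x + d * y ≠ 0 := by
  by_contra hcon
  push Not at hcon
  obtain ⟨h1, h2⟩ := hcon
  have hx : e * x = 0 := by rw [← h]; linear_combination d * h1 - b * h2
  have hy : e * y = 0 := by rw [← h]; linear_combination a * h2 - c * h1
  rcases hv with hv | hv
  · exact hv ((mul_eq_zero.1 hx).resolve_left he)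
  · exact hv ((mul_eq_zero.1 hy).resolve_left he)

/-- Reduction to a representative. -/
theorem two {e1 e2 e3 : ℤ} {F : ℤ → ℤ → ℂ} (h : Inv e1 e2 e3 F) {r1 r2 r3 r4 : ℤ}
    (hr : r1 * r4 - r2 * r3 = 1) {p q r s : ℤ} (hd : p * s - q * r = 1)
    (d1 : e1 ∣ q * r1 - p * r2) (d2 : e2 ∣ r * r4 - s * r3) :
    F p r - F q s = F r1 r3 - F r2 r4 := by
  obtain ⟨b, hb⟩ := d1
  obtain ⟨c, hc⟩ := d2
  have n3 : r1 ≠ 0 ∨ r3 ≠ 0 := by
    by_contra hcon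
    push Not at hcon
    rw [hcon.1, hcon.2] at hr
    simp at hr
  have n4 : r2 ≠ 0 ∨ r4 ≠ 0 := by
    by_contra hcon
    push Not at hcon
    rw [hcon.1, hcon.2] at hr
    simp at hr
  have hT : (p * r4 - q * r3) * (s * r1 - r * r2) - e1 * b * (e2 * c) = 1 := by
    rw [← hb, ← hc]
    linear_combination (p * s - q * r) * hr + hd
  have e := h.gam _ b c _ hT _ _ _ _ n3 n4
  rw [← e, ← hb, ← hc]
  congr 2
  · linear_combination (-p) * hr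
  · linear_combination (-r) * hr
  · linear_combination (-q) * hr
  · linear_combination (-s) * hr

/-- The vectors are proportional, up to the reflection. -/
def pr (v c : ℤ × ℤ) : Prop := (v.1 ≠ 0 ∨ v.2 ≠ 0) ∧ (c.1 ≠ 0 ∨ c.2 ≠ 0) ∧
  (v.1 * c.2 = v.2 * c.1 ∨ v.1 * c.2 = -(v.2 * c.1))

instance decPr (v c : ℤ × ℤ) : Decidable (pr v c) := by
  unfold pr
  infer_instance

theorem pr_eq {e1 e2 e3 : ℤ} {F : ℤ → ℤ → ℂ} (h : Inv e1 e2 e3 F) {v1 v2 c1 c2 : ℤ}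
    (hp : pr (v1, v2) (c1, c2)) : F v1 v2 = F c1 c2 := by
  obtain ⟨hv, hc, hp⟩ := hp
  simp only at hv hc hp
  by_cases h0 : c2 = 0
  · subst h0
    have hc1 : c1 ≠ 0 := by rcases hc with hc | hc; exacts [hc, absurd rfl hc]
    have hv2 : v2 = 0 := by
      have e : v2 * c1 = 0 := by
        rcases hp with hp | hp
        · rw [← hp, mul_zero]
        · rw [mul_zero] at hp; exact neg_eq_zero.1 hp.symm
      exact (mul_eq_zero.1 e).resolve_right hc1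
    subst hv2
    have hv1 : v1 ≠ 0 := by rcases hv with hv | hv; exacts [hv, absurd rfl hv]
    have a1 := h.hom v1 1 0 hv1 (Or.inl one_ne_zero)
    have a2 := h.hom c1 1 0 hc1 (Or.inl one_ne_zero)
    rw [mul_one, mul_zero] at a1 a2
    rw [a1, a2]
  · have hv2 : v2 ≠ 0 := by
      rintro rfl
      have e : v1 * c2 = 0 := by rcases hp with hp | hp <;> simpa using hp
      have : v1 = 0 := (mul_eq_zero.1 e).resolve_right h0
      rcases hv with hv | hv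
      · exact hv this
      · exact hv rfl
    have a1 := h.hom c2 v1 v2 h0 hv
    rcases hp with hp | hp
    · have a2 := h.hom v2 c1 c2 hv2 hc
      rw [← a1, ← a2, mul_comm c2 v1, hp, mul_comm c2 v2]
    · have a2 := h.hom v2 (-c1) c2 hv2 (Or.inr h0)
      have a3 := h.st c1 c2 hc
      rw [← a1, ← a3, ← a2, mul_comm c2 v1, hp, mul_comm c2 v2, mul_neg]

/-- The matrix `t` has determinant one and its columns are proportional to vectors of the list. -/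
def okA (K : List (ℤ × ℤ)) (t : ℤ × ℤ × ℤ × ℤ) : Prop := t.1 * t.2.2.2 - t.2.1 * t.2.2.1 = 1 ∧
  (∃ c ∈ K, pr (t.1, t.2.2.1) c) ∧ (∃ c ∈ K, pr (t.2.1, t.2.2.2) c)

instance decOkA (K : List (ℤ × ℤ)) (t : ℤ × ℤ × ℤ × ℤ) : Decidable (okA K t) := by
  unfold okA
  infer_instance

/-- The potential is constant: lists of representatives and of vectors with the same value. -/
theorem fin1 (hfar : StFar) {e1 e2 e3 : ℤ} {F : ℤ → ℤ → ℂ} (h : Inv e1 e2 e3 F) (κ : ℂ)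
    (K : List (ℤ × ℤ)) (hK : ∀ c ∈ K, F c.1 c.2 = κ) (LA : List (ℤ × ℤ × ℤ × ℤ))
    (hLA : ∀ t ∈ LA, okA K t)
    (cA : ∀ p q r s : ℤ, p * s - q * r = 1 → ∃ t ∈ LA, e1 ∣ q * t.1 - p * t.2.1 ∧
      e2 ∣ r * t.2.2.2 - s * t.2.2.1) : EqC F 0 := by
  refine hfar ℂ _ F h.hom fun p q r s hd => ?_
  obtain ⟨t, ht, d1, d2⟩ := cA p q r s hd
  obtain ⟨hT, ⟨c, hc, p1⟩, ⟨c', hc', p2⟩⟩ := hLA t ht
  have e := two h hT hd d1 d2
  rw [(pr_eq h p1).trans (hK c hc), (pr_eq h p2).trans (hK c' hc'), sub_self] at e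
  exact sub_eq_zero.1 e

/-- The symmetries at level `p^n` in the original coordinates. -/
theorem inv_of {p n : ℕ} {G : ℤ → ℤ → ℂ} (hS : SymP p 0 n G)
    (hW : EqC (act 0 (-1) ((p : ℤ) ^ n) 0 G) (-G)) (hst : EqC (act (-1) 0 0 1 G) G) :
    Inv 1 ((p : ℤ) ^ n) ((p : ℤ) ^ n) G := by
  obtain ⟨hH, hG⟩ := hS
  have st : ∀ x y : ℤ, (x ≠ 0 ∨ y ≠ 0) → G (-x) y = G x y := by
    intro x y hv
    have e := hst.diff (p := x) (q := y) (p' := 1) (q' := 0) hv (Or.inl one_ne_zero)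
    have e0 := hH (-1) 1 0 (by norm_num) (Or.inl one_ne_zero)
    simp only [act, mul_zero, mul_one, add_zero, zero_mul, one_mul, zero_add] at e e0
    rw [e0, neg_one_mul] at e
    exact sub_left_injective e
  refine ⟨hH, ?_, st, ?_⟩
  · intro a b c d hd x y z w hv hw
    have e := (hG a (1 * b) ((p : ℤ) ^ n * c) d hd (by simp) (Dvd.intro _ rfl)).diff hv hw
    exact e
  · intro x y z w hv hw
    have e := hW.diff hv hw
    simp only [act, Pi.neg_apply, zero_mul, zero_add, add_zero, neg_one_mul] at e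
    rw [e]
    ring

/-- The symmetries of `F(x, y) = K(x, p y)` at level `p^2`. -/
theorem inv_sq {p : ℕ} (hp : p ≠ 0) {K : ℤ → ℤ → ℂ} (hS : SymP p 0 2 K)
    (hW : EqC (act 0 (-1) ((p : ℤ) ^ 2) 0 K) (-K)) (hst : EqC (act (-1) 0 0 1 K) K) :
    Inv p p 1 (fun x y => K x (p * y)) := by
  have hI := inv_of hS hW hst
  have hpz : (p : ℤ) ≠ 0 := by exact_mod_cast hp
  have sc : ∀ x y : ℤ, (x ≠ 0 ∨ y ≠ 0) → (x ≠ 0 ∨ (p : ℤ) * y ≠ 0) := by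
    intro x y hv
    rcases hv with hv | hv
    · exact Or.inl hv
    · exact Or.inr (mul_ne_zero hpz hv)
  refine ⟨?_, ?_, fun x y hv => hI.st x _ (sc x y hv), ?_⟩
  · intro k x y hk hv
    have := hI.hom k x (p * y) hk (sc x y hv)
    simp only
    rw [← this]
    congr 1; ring
  · intro a b c d hd x y z w hv hw
    have hT : a * d - 1 * b * ((p : ℤ) ^ 2 * c) = 1 := by linear_combination hd
    have e := hI.gam a b c d hT x (p * y) z (p * w) (sc x y hv) (sc z w hw)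
    rw [← e]
    congr 2 <;> ring
  · intro x y z w hv hw
    have e := hI.sw x (p * y) z (p * w) (sc x y hv) (sc z w hw)
    rw [← e]
    have q1 : ∀ x y : ℤ, (x ≠ 0 ∨ y ≠ 0) →
        K (-(p * y)) ((p : ℤ) ^ 2 * x) = K (-y) (p * (1 * x)) := by
      intro x y hv
      have := hI.hom p (-y) (p * (1 * x)) hpz (by
        rcases hv with hv | hv
        · exact Or.inr (mul_ne_zero hpz (mul_ne_zero (by norm_num) hv))
        · exact Or.inl (neg_ne_zero.2 hv))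
      rw [← this]
      congr 1 <;> ring
    rw [q1 x y hv, q1 z w hw]

end Pool.Agent.Helper85.P11
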